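import Pool.Agent.Q170.PO.St
import Pool.Agent.Q239.UZ.PTS
import Pool.Agent.Q239.UZ.PRS
import Pool.Agent.Q239.UZ.ZER
import Pool.Agent.Q52.UZ.CRT

/-! Job PO-DENP of helper170: almost all integral points have a denominator with a good prime
factor. -/

set_option autoImplicit false
set_option linter.unusedSectionVars false

namespace Pool.Agent.Q239.PO

open Pool.Agent.Q170.PO

/-- the reduction of a polynomial modulo a large prime is not zero -/
lemma red_ne_zero {σ : Type} (E : MvPolynomial σ ℤ) (hE : E ≠ 0) : ∃ Q : ℕ, ∀ p : ℕ, Q < p →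
    MvPolynomial.map (Int.castRingHom (ZMod p)) E ≠ 0 := by
  obtain ⟨s, hs⟩ := MvPolynomial.ne_zero_iff.1 hE
  refine ⟨(MvPolynomial.coeff s E).natAbs, fun p hp h => ?_⟩
  have h1 := congrArg (MvPolynomial.coeff s) h
  rw [MvPolynomial.coeff_map, MvPolynomial.coeff_zero, eq_intCast,
    ZMod.intCast_zmod_eq_zero_iff_dvd] at h1
  have h2 := Int.natAbs_dvd_natAbs.2 h1
  rw [Int.natAbs_natCast] at h2
  have h3 := Nat.le_of_dvd (Int.natAbs_pos.2 hs) h2
  omega

lemma degree_map_le {σ : Type} (p : ℕ) (E : MvPolynomial σ ℤ) :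
    (MvPolynomial.map (Int.castRingHom (ZMod p)) E).totalDegree ≤ E.totalDegree := by
  classical
  unfold MvPolynomial.totalDegree
  exact Finset.sup_mono (MvPolynomial.support_map_subset _ _)

/-- the classes modulo `p` -/
lemma exists_classes (n d : ℕ) (E : MvPolynomial (Fin n × Fin (d + 1)) ℤ) (hE : E ≠ 0)
    (e : Option (Fin n × Fin (d + 1)) ≃ Fin (1 + n * (d + 1))) : ∃ Q : ℕ, ∀ p : ℕ, p.Prime →
    Q < p → ∃ T : Finset (Fin (1 + n * (d + 1)) → ZMod p),
      p ^ (1 + n * (d + 1) - 1) ≤ 2 * T.card ∧ ∀ t ∈ T, t (e none) = 0 ∧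
        MvPolynomial.eval (fun q => t (e (some q))) (MvPolynomial.map (Int.castRingHom (ZMod p)) E) ≠ 0 := by
  classical
  obtain ⟨Q, hQ⟩ := red_ne_zero E hE
  refine ⟨max Q (2 * E.totalDegree), fun p hp hQp => ?_⟩
  have : Fact p.Prime := ⟨hp⟩
  have hdeg : 2 * (MvPolynomial.map (Int.castRingHom (ZMod p)) E).totalDegree ≤ p := by
    have := degree_map_le p E
    have h2 := le_max_right Q (2 * E.totalDegree)
    omega
  have hcd : Fintype.card (Fin n × Fin (d + 1)) = n * (d + 1) := by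
    rw [Fintype.card_prod, Fintype.card_fin, Fintype.card_fin]
  obtain ⟨W, hW1, hW2⟩ := Pool.Agent.Q239.UZ.sz_half (k := ZMod p) (ZMod.card p) hcd
    (hQ p ((le_max_left _ _).trans_lt hQp)) hdeg hp.pos
  refine ⟨W.image (fun x j => (e.symm j).elim 0 x), ?_, ?_⟩
  · rw [Finset.card_image_of_injective]
    · rw [Nat.add_sub_cancel_left]
      exact hW1
    · intro x y hxy
      funext q
      have h1 := congrFun hxy (e (some q))
      simpa using h1
  · intro t ht
    obtain ⟨x, hx, rfl⟩ := Finset.mem_image.1 ht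
    refine ⟨by simp, ?_⟩
    have h1 : (fun q => (e.symm (e (some q))).elim 0 x) = x := by
      funext q
      simp
    show MvPolynomial.eval (fun q => (e.symm (e (some q))).elim 0 x) _ ≠ 0
    rw [h1]
    exact hW2 x hx

/-- JOB PO-DENP -/
theorem denp : S_DENP := by
  classical
  intro n d E hE Q ε hε
  have hcard : Fintype.card (Option (Fin n × Fin (d + 1))) = 1 + n * (d + 1) := by
    rw [Fintype.card_option, Fintype.card_prod, Fintype.card_fin, Fintype.card_fin, add_comm]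
  let e : Option (Fin n × Fin (d + 1)) ≃ Fin (1 + n * (d + 1)) := Fintype.equivFinOfCardEq hcard
  obtain ⟨Q₁, hQ₁⟩ := exists_classes n d E hE e
  obtain ⟨S, hS, hSc⟩ := Pool.Agent.Q239.UZ.t_PRS ℚ (max Q Q₁) (-2 * Real.log (ε / 4))
  have hS' : ∀ p ∈ S, p.Prime ∧ Q < p ∧ Q₁ < p := fun p hp =>
    ⟨(hS p hp).1, (le_max_left _ _).trans_lt (hS p hp).2.1, (le_max_right _ _).trans_lt (hS p hp).2.1⟩
  choose! T hT1 hT2 using hQ₁
  obtain ⟨H₁, hH₁⟩ := _root_.Q52.UZ.t_CRT (1 + n * (d + 1)) S T (by omega)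
    (fun p hp => ⟨(hS' p hp).1, hT1 p (hS' p hp).1 (hS' p hp).2.2⟩) (ε / 4) (by positivity)
  obtain ⟨H₂, hH₂⟩ := Pool.Agent.Q239.UZ.t_ZER ℚ (1 + n * (d + 1)) (MvPolynomial.X (e none))
    (MvPolynomial.X_ne_zero _) (ε / 2) (by positivity)
  refine ⟨S.sup id, max H₁ H₂, fun H hH => ?_⟩
  have h1 := hH₁ H ((le_max_left _ _).trans hH)
  have h2 := hH₂ H ((le_max_right _ _).trans hH)
  set A : Set (Fin (1 + n * (d + 1)) → ℤ) := {t | (∀ j, |t j| ≤ H) ∧
    ∀ p ∈ S, (fun j => (t j : ZMod p)) ∉ T p} with hA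
  set Z : Set (Fin (1 + n * (d + 1)) → ℤ) := {t | (∀ j, |t j| ≤ H) ∧
    MvPolynomial.eval (fun j => (t j : ℚ)) (MvPolynomial.X (e none)) = 0} with hZ
  have hfin : ({t : Fin (1 + n * (d + 1)) → ℤ | ∀ j, |t j| ≤ H}).Finite := by
    have h3 : ({t : Fin (1 + n * (d + 1)) → ℤ | ∀ j, |t j| ≤ H}) ⊆
        Set.pi Set.univ (fun _ => Set.Icc (-(H : ℤ)) H) := by
      intro t ht j _
      exact abs_le.1 (ht j)
    exact (Set.Finite.pi' fun _ => Set.finite_Icc _ _).subset (fun t ht j => abs_le.1 (ht j))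
  have hAf : A.Finite := hfin.subset fun t ht => ht.1
  have hZf : Z.Finite := hfin.subset fun t ht => ht.1
  have hexp : Real.exp (-(∑ p ∈ S, (1 / p : ℝ)) / 2) ≤ ε / 4 := by
    have h3 : -(∑ p ∈ S, (1 / p : ℝ)) / 2 ≤ Real.log (ε / 4) := by linarith
    calc Real.exp (-(∑ p ∈ S, (1 / p : ℝ)) / 2) ≤ Real.exp (Real.log (ε / 4)) :=
          Real.exp_le_exp.2 h3
      _ = ε / 4 := Real.exp_log (by positivity)
  have hpos : (0 : ℝ) ≤ (2 * H + 1) ^ (1 + n * (d + 1)) := by positivity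
  have hle : ({t : ℤ × (Fin n → Fin (d + 1) → ℤ) | (|t.1| ≤ H ∧ ∀ i k, |t.2 i k| ≤ H) ∧
    ¬ (t.1 ≠ 0 ∧ ∃ p : ℕ, p.Prime ∧ Q < p ∧ p ≤ S.sup id ∧ (p : ℤ) ∣ t.1 ∧
      ¬ (p : ℤ) ∣ MvPolynomial.eval (fun q => t.2 q.1 q.2) E)}).ncard ≤ (A ∪ Z).ncard := by
    refine Set.ncard_le_ncard_of_injOn
      (fun t j => (e.symm j).elim t.1 (fun q => t.2 q.1 q.2)) ?_ ?_ (hAf.union hZf)
    · rintro ⟨m, a⟩ ⟨⟨hm, ha⟩, hbad⟩
      have hbox : ∀ j, |(e.symm j).elim m (fun q => a q.1 q.2)| ≤ (H : ℤ) := by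
        intro j
        rcases e.symm j with _ | q
        · exact hm
        · exact ha q.1 q.2
      by_cases hm0 : m = 0
      · right
        refine ⟨hbox, ?_⟩
        rw [MvPolynomial.eval_X]
        simp [hm0]
      · left
        refine ⟨hbox, fun p hp hcl => hbad ⟨hm0, p, (hS' p hp).1, (hS' p hp).2.1,
          Finset.le_sup (f := id) hp, ?_, ?_⟩⟩
        · have h3 := (hT2 p (hS' p hp).1 (hS' p hp).2.2 _ hcl).1
          have h4 : ((m : ℤ) : ZMod p) = 0 := by simpa using h3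
          exact (ZMod.intCast_zmod_eq_zero_iff_dvd m p).1 h4
        · intro hdvd
          have h3 := (hT2 p (hS' p hp).1 (hS' p hp).2.2 _ hcl).2
          apply h3
          have h4 : (fun q => (((e.symm (e (some q))).elim m (fun q => a q.1 q.2) : ℤ) : ZMod p)) =
              (Int.castRingHom (ZMod p)) ∘ (fun q => a q.1 q.2) := by
            funext q
            simp
          show MvPolynomial.eval (fun q => (((e.symm (e (some q))).elim m
            (fun q => a q.1 q.2) : ℤ) : ZMod p)) _ = 0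
          rw [h4, ← MvPolynomial.map_eval, eq_intCast]
          exact (ZMod.intCast_zmod_eq_zero_iff_dvd _ p).2 hdvd
    · rintro ⟨m, a⟩ _ ⟨m', a'⟩ _ h
      have h3 : ∀ o : Option (Fin n × Fin (d + 1)), o.elim m (fun q => a q.1 q.2) =
          o.elim m' (fun q => a' q.1 q.2) := by
        intro o
        have h4 := congrFun h (e o)
        simpa using h4
      refine Prod.ext (h3 none) ?_
      funext i k
      exact h3 (some (i, k))
  have hun : (A ∪ Z).ncard ≤ A.ncard + Z.ncard := Set.ncard_union_le _ _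
  calc _ ≤ ((A ∪ Z).ncard : ℝ) := by exact_mod_cast hle
    _ ≤ (A.ncard : ℝ) + Z.ncard := by exact_mod_cast hun
    _ ≤ (Real.exp (-(∑ p ∈ S, (1 / p : ℝ)) / 2) + ε / 4) * (2 * H + 1) ^ (1 + n * (d + 1)) +
        ε / 2 * (2 * H + 1) ^ (1 + n * (d + 1)) := add_le_add h1 h2
    _ ≤ (ε / 4 + ε / 4) * (2 * H + 1) ^ (1 + n * (d + 1)) +
        ε / 2 * (2 * H + 1) ^ (1 + n * (d + 1)) := by
        have := mul_le_mul_of_nonneg_right (add_le_add_left hexp (ε / 4)) hpos
        linarith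
    _ = ε * (2 * H + 1) ^ (1 + n * (d + 1)) := by ring

end Pool.Agent.Q239.PO
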