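import Pool.Agent.Q170.PO.St
import Pool.Agent.Q14.UZ.TAT
import Pool.Agent.Y61.ZX.NF

/-! Job PO-FPS of helper170: a modular equation between two coordinates of a polynomial curve in
general position has finitely many solutions, all algebraic. -/

set_option autoImplicit false
set_option linter.unusedSectionVars false

open UpperHalfPlane H294ZP Polynomial

namespace Pool.Agent.Q239.PO

open Pool.Agent.Y226 Pool.Agent.Y226.ZG Pool.Agent.Y226.ZM Pool.Agent.Q170.PO

section hom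

variable {S T : Type*} [CommRing S] [CommRing T]

/-- the modular equation, homogeneous in both pairs of variables with the same denominator -/
noncomputable def PH (φ : ZZ →+* S) (P : ℕ → ZZ[X]) (D M : ℕ) (a b t : S) : S :=
  ∑ i ∈ Finset.range (D + 1), (∑ k ∈ Finset.range (M + 1),
    φ ((P i).coeff k) * a ^ k * t ^ (M - k)) * b ^ i * t ^ (D - i)

theorem map_PH (φ : ZZ →+* S) (f : S →+* T) (P : ℕ → ZZ[X]) (D M : ℕ) (a b t : S) :
    f (PH φ P D M a b t) = PH (f.comp φ) P D M (f a) (f b) (f t) := by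
  unfold PH
  simp only [map_sum, map_mul, map_pow, RingHom.comp_apply]

theorem PH_eq (φ : ZZ →+* S) (P : ℕ → ZZ[X]) (D M : ℕ) (hM : ∀ i ≤ D, (P i).natDegree ≤ M)
    (x y t : S) : PH φ P D M (x * t) (y * t) t = PsiE φ P D x y * t ^ (M + D) := by
  unfold PH PsiE
  rw [Finset.sum_mul]
  refine Finset.sum_congr rfl fun i hi => ?_
  have hi' : i ≤ D := Nat.lt_succ_iff.1 (Finset.mem_range.1 hi)
  rw [eval₂_eq_sum_range' φ (Nat.lt_succ_of_le (hM i hi')) x]
  have h1 : ∑ k ∈ Finset.range (M + 1), φ ((P i).coeff k) * (x * t) ^ k * t ^ (M - k) =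
      (∑ k ∈ Finset.range (M + 1), φ ((P i).coeff k) * x ^ k) * t ^ M := by
    rw [Finset.sum_mul]
    refine Finset.sum_congr rfl fun k hk => ?_
    have hk' : k ≤ M := Nat.lt_succ_iff.1 (Finset.mem_range.1 hk)
    have e : t ^ M = t ^ k * t ^ (M - k) := by rw [← pow_add, Nat.add_sub_cancel' hk']
    rw [e, mul_pow]
    ring
  rw [h1]
  have e : t ^ (M + D) = t ^ M * (t ^ i * t ^ (D - i)) := by
    rw [← pow_add, Nat.add_sub_cancel' hi', ← pow_add]
  rw [e, mul_pow]
  ring

end hom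

section loc

variable {C : Type} [NormedField C] [IsUltrametricDist C] {p : ℕ} [hpf : Fact p.Prime]

/-- values and reductions -/
theorem vl_red {k : Type} [Field k] [CharP k p] (P : ℤ[X]) (x : k) :
    vl P x = (rd p P).eval₂ (ZMod.castHom (dvd_refl p) k) x := by
  unfold vl rd
  rw [eval₂_map]
  congr 1
  exact RingHom.ext_int _ _

theorem vl_coe {k : Type} [Field k] (red : OO C →+* k) (P : ℤ[X]) (e : OO C) :
    red ⟨vl P (e : C), by
      have h := (vl_map (OO C).subtype P e)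
      rw [Subring.subtype_apply, Subring.subtype_apply] at h
      rw [← h]
      exact (vl P e).2⟩ = vl P (red e) := by
  rw [← vl_map red P e]
  congr 1
  apply Subtype.ext
  exact (vl_map (OO C).subtype P e).symm

theorem vl_norm_le (P : ℤ[X]) {e : C} (he : ‖e‖ ≤ 1) : ‖vl P e‖ ≤ 1 := by
  have h := (vl_map (OO C).subtype P ⟨e, he⟩)
  rw [Subring.subtype_apply, Subring.subtype_apply] at h
  rw [← h]
  exact (vl P (⟨e, he⟩ : OO C)).2

/-- two coprime polynomials have no common zero -/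
theorem vl_cop {k : Type} [Field k] [CharP k p] (red : OO C →+* k)
    (hred : ∀ x : OO C, red x = 0 ↔ ‖(x : C)‖ < 1) {P Q : ℤ[X]} (h : IsCoprime (rd p P) (rd p Q))
    {e : C} (he : ‖e‖ ≤ 1) (hP : ‖vl P e‖ < 1) : ‖vl Q e‖ = 1 := by
  refine le_antisymm (vl_norm_le Q he) (not_lt.1 fun hQ => ?_)
  have h1 := (hred _).2 (show ‖((⟨vl P ((⟨e, he⟩ : OO C) : C), vl_norm_le P he⟩ : OO C) : C)‖ < 1
    from hP)
  have h2 := (hred _).2 (show ‖((⟨vl Q ((⟨e, he⟩ : OO C) : C), vl_norm_le Q he⟩ : OO C) : C)‖ < 1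
    from hQ)
  rw [vl_coe red P ⟨e, he⟩, vl_red (p := p)] at h1
  rw [vl_coe red Q ⟨e, he⟩, vl_red (p := p)] at h2
  obtain ⟨a, b, hab⟩ := h
  have h3 := congrArg (fun R => R.eval₂ (ZMod.castHom (dvd_refl p) k) (red ⟨e, he⟩)) hab
  simp only [eval₂_add, eval₂_mul, eval₂_one, h1, h2, mul_zero, add_zero] at h3
  exact zero_ne_one h3

/-- a root of norm at most one -/
theorem exists_small_root [IsAlgClosed C] (hp1 : ‖(p : C)‖ < 1) (φ : QA →+* C) (P : ℤ[X])
    (hP : 0 < (rd p P).natDegree) : ∃ ρ : QA, vl P ρ = 0 ∧ ‖φ ρ‖ ≤ 1 := by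
  by_contra hcon
  push Not at hcon
  obtain ⟨k, _, _, _, red, hred, hsurj⟩ := Pool.Agent.Y61.ZX.exists_residue3 (C := C) (p := p) hp1
  set F : QA[X] := P.map (Int.castRingHom QA) with hF
  have hF0 : F ≠ 0 := by
    intro h0
    have hP0 : P = 0 := by
      have h1 : Function.Injective (Int.castRingHom QA) := Int.cast_injective
      exact (Polynomial.map_eq_zero_iff h1).1 h0
    rw [hP0] at hP
    unfold rd at hP
    rw [Polynomial.map_zero, natDegree_zero] at hP
    exact lt_irrefl _ hP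
  have hsplit : F.Splits := IsAlgClosed.splits F
  have hval : ∀ e : C, ‖e‖ ≤ 1 → ‖vl P e‖ = ‖φ F.leadingCoeff‖ *
      (F.roots.map (fun ρ => ‖φ ρ‖)).prod := by
    intro e he
    have h1 : vl P e = (F.map φ).eval e := by
      rw [hF, Polynomial.map_map, eval_map]
      unfold vl
      congr 1
      exact RingHom.ext_int _ _
    have h2 : F = Polynomial.C F.leadingCoeff *
        (F.roots.map (fun a => X - Polynomial.C a)).prod := hsplit.eq_prod_roots
    have h3 : (F.map φ).eval e = φ F.leadingCoeff * (F.roots.map (fun a => e - φ a)).prod := by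
      conv_lhs => rw [h2]
      rw [Polynomial.map_mul, map_C, eval_mul, eval_C, Polynomial.map_multiset_prod,
        Multiset.map_map, eval_multiset_prod, Multiset.map_map]
      congr 2
      refine Multiset.map_congr rfl fun a _ => ?_
      simp
    rw [h1, h3, norm_mul]
    congr 1
    have h4 := map_multiset_prod (normHom : C →*₀ ℝ) (F.roots.map (fun a => e - φ a))
    rw [Multiset.map_map] at h4
    have h5 : ‖(F.roots.map (fun a => e - φ a)).prod‖ =
        (normHom : C →*₀ ℝ) (F.roots.map (fun a => e - φ a)).prod := rfl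
    rw [h5, h4]
    congr 1
    refine Multiset.map_congr rfl fun a ha => ?_
    show ‖e - φ a‖ = ‖φ a‖
    have h6 : vl P a = 0 := by
      have h7 := (mem_roots hF0).1 ha
      rw [IsRoot, hF, eval_map] at h7
      exact h7
    have h8 := hcon a h6
    have h9 : ‖(e - φ a) - (-φ a)‖ < ‖-φ a‖ := by
      rw [norm_neg, sub_neg_eq_add, sub_add_cancel]
      exact he.trans_lt h8
    rw [neq_of_sub_lt h9, norm_neg]
  set f : k[X] := (rd p P).map (ZMod.castHom (dvd_refl p) k) with hf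
  have hdeg : f.natDegree = (rd p P).natDegree :=
    natDegree_map_eq_of_injective (ZMod.castHom (dvd_refl p) k).injective _
  have hf0 : f ≠ 0 := by
    intro h0
    rw [h0, natDegree_zero] at hdeg
    omega
  have key : ∀ e : OO C, ‖vl P (e : C)‖ < 1 ↔ f.eval (red e) = 0 := by
    intro e
    have h1 := vl_coe red P e
    rw [hf, eval_map, ← vl_red (p := p), ← h1]
    exact (hred (⟨vl P (e : C), vl_norm_le P e.2⟩ : OO C)).symm
  obtain ⟨x, hx⟩ := IsAlgClosed.exists_root f (by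
    intro h0
    have h1 : f.natDegree = 0 := natDegree_eq_of_degree_eq_some h0
    rw [hdeg] at h1
    exact hP.ne' h1)
  obtain ⟨e, rfl⟩ := hsurj x
  obtain ⟨y, hy⟩ : ∃ y : k, f.eval y ≠ 0 := by
    by_contra hc
    push Not at hc
    exact hf0 (Polynomial.funext fun y => by rw [hc y, eval_zero])
  obtain ⟨e', rfl⟩ := hsurj y
  have h1 := (key e).2 hx
  have h2 : ¬ ‖vl P (e' : C)‖ < 1 := fun h => hy ((key e').1 h)
  rw [hval e e.2] at h1
  rw [hval e' e'.2] at h2
  exact h2 h1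

end loc

/-- JOB PO-FPS -/
theorem fps : S_FPS := by
  intro n d p f g hp hG m hm hpm j l hjl N hN
  have hpf : Fact p.Prime := ⟨hp⟩
  obtain ⟨M, hM⟩ : ∃ M : ℕ, ∀ i ≤ mD N, (mP N i).natDegree ≤ M :=
    ⟨(Finset.range (mD N + 1)).sup fun i => (mP N i).natDegree, fun i hi =>
      Finset.le_sup (f := fun i => (mP N i).natDegree) (Finset.mem_range.2 (Nat.lt_succ_of_le hi))⟩
  refine ⟨PH (Polynomial.C.comp iA) (mP N) (mD N) M (vl (f l) (X : QA[X])) (vl (f j) (X : QA[X]))
    ((m : QA[X]) * vl g (X : QA[X])), ?_, ?_⟩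
  · intro h0
    obtain ⟨𝒞, _, _, _, _, _, φ, hφ⟩ := exists_padic p
    have hp1 : ‖(p : 𝒞)‖ < 1 := by
      rw [hφ]
      exact inv_lt_one_of_one_lt₀ (by exact_mod_cast hp.one_lt)
    obtain ⟨k, _, _, _, red, hred, hsurj⟩ :=
      Pool.Agent.Y61.ZX.exists_residue3 (C := 𝒞) (p := p) hp1
    obtain ⟨ρ, hρ0, hρ1⟩ := exists_small_root hp1 φ (f j) (hG.pos j)
    have hz : ‖vl (f j) (φ ρ)‖ < 1 := by
      rw [← vl_map, hρ0, map_zero, norm_zero]
      exact one_pos
    have hg1 : ‖vl g (φ ρ)‖ = 1 := vl_cop red hred (hG.copg j) hρ1 hz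
    have hl1 : ‖vl (f l) (φ ρ)‖ = 1 := vl_cop red hred (hG.cop j l hjl) hρ1 hz
    have hm1 : ‖(m : 𝒞)‖ < 1 := by
      obtain ⟨c, rfl⟩ := hpm
      rw [Int.cast_mul, Int.cast_natCast, norm_mul]
      calc ‖(p : 𝒞)‖ * ‖(c : 𝒞)‖ ≤ ‖(p : 𝒞)‖ * 1 :=
            mul_le_mul_of_nonneg_left (nint c) (norm_nonneg _)
        _ < 1 := by rw [mul_one]; exact hp1
    have hm0 : 0 < ‖(m : 𝒞)‖ := norm_pos_iff.2 (Int.cast_ne_zero.2 hm)
    have hT0 : (m : QA) * vl g ρ ≠ 0 := by
      refine mul_ne_zero (Int.cast_ne_zero.2 hm) fun h => ?_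
      rw [← vl_map, h, map_zero, norm_zero] at hg1
      exact zero_ne_one hg1
    have h1 := congrArg (evalRingHom ρ) h0
    rw [map_PH, map_zero, vl_map, vl_map, map_mul, map_intCast, vl_map, coe_evalRingHom, eval_X,
      hρ0] at h1
    have h2 : (evalRingHom ρ).comp (Polynomial.C.comp iA) = iA := by
      refine RingHom.ext fun z => ?_
      simp
    rw [h2] at h1
    have h3 : vl (f l) ρ = vl (f l) ρ / (m * vl g ρ) * (m * vl g ρ) := by
      rw [div_mul_cancel₀ _ hT0]
    rw [h3, ← zero_mul ((m : QA) * vl g ρ), PH_eq iA _ _ _ hM] at h1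
    have h4 : PsiE iA (mP N) (mD N) (vl (f l) ρ / (m * vl g ρ)) 0 = 0 :=
      (mul_eq_zero.1 (h1.trans (zero_mul _))).resolve_right (pow_ne_zero _ hT0)
    have h5 : PsiE ιZ (mP N) (mD N) (rA (vl (f l) ρ / (m * vl g ρ))) (rA 0) = 0 := by
      rw [← rA_comp, ← map_PsiE, h4, map_zero]
    have h6 : 1 < ‖φ (vl (f l) ρ / (m * vl g ρ))‖ := by
      rw [map_div₀, map_mul, map_intCast, vl_map, vl_map, norm_div, norm_mul, hl1, hg1, mul_one,
        one_div]
      exact (one_lt_inv₀ hm0).2 hm1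
    have h7 := (Pool.Agent.Q14.UZ.t_TAT 𝒞 φ N hN _ _ h6 h5).1
    rw [map_zero, norm_zero] at h7
    linarith
  · intro s hs hrel
    have hT0 : (m : ℂ) * vl g s ≠ 0 := mul_ne_zero (Int.cast_ne_zero.2 hm) hs
    have h1 := map_PH (Polynomial.C.comp iA) ((evalRingHom s).comp (mapRingHom rA)) (mP N) (mD N) M
      (vl (f l) (X : QA[X])) (vl (f j) (X : QA[X])) ((m : QA[X]) * vl g (X : QA[X]))
    have h2 : ((evalRingHom s).comp (mapRingHom rA)).comp (Polynomial.C.comp iA) = ιZ := by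
      rw [← rA_comp]
      refine RingHom.ext fun z => ?_
      simp
    have h3 : ((evalRingHom s).comp (mapRingHom rA)) (X : QA[X]) = s := by simp
    rw [h2, vl_map, vl_map, map_mul, map_intCast, vl_map, h3] at h1
    have h4 : ∀ i, vl (f i) s = vl (f i) s / (m * vl g s) * (m * vl g s) := fun i => by
      rw [div_mul_cancel₀ _ hT0]
    rw [h4 l, h4 j, PH_eq ιZ _ _ _ hM, hrel, zero_mul] at h1
    exact h1

end Pool.Agent.Q239.PO
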